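import Pool.Agent.MP_fb3574_al.H90.Sec

set_option autoImplicit false

namespace Pool.Agent.Results.MP_fb3574_al.Section

/-- Every FC-group is a quotient of a subgroup of a restricted direct product of groups with
finite derived subgroup; for a periodic group the factors are periodic. -/
theorem result :
    ∀ (G : Type) [Group G], (∀ g : G, {h : G | IsConj g h}.Finite) →
      ∃ (ι : Type) (P : ι → Type) (_ : ∀ i, Group (P i)),
        (∀ i, Finite ↥(commutator (P i))) ∧
        ((∀ g : G, IsOfFinOrder g) → ∀ (i : ι) (x : P i), IsOfFinOrder x) ∧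
        ∃ H : Subgroup (∀ i, P i), (∀ x ∈ H, {i | x i ≠ 1}.Finite) ∧
          ∃ (N : Subgroup ↥H) (_ : N.Normal), Nonempty ((↥H ⧸ N) ≃* G) := by
  intro G _ hG
  by_cases ht : ∀ g : G, IsOfFinOrder g
  · obtain ⟨ι, P, inst, h1, H, h2, f, hf⟩ := Pool.Agent.MP_fb3574_al.H90.sec_periodic G hG ht
    exact ⟨ι, P, inst, fun i => (h1 i).1, fun _ i => (h1 i).2, H, h2, f.ker, inferInstance,
      ⟨QuotientGroup.quotientKerEquivOfSurjective f hf⟩⟩
  · obtain ⟨ι, P, inst, h1, H, h2, f, hf⟩ := Pool.Agent.MP_fb3574_al.H90.sec_of_fc G hG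
    exact ⟨ι, P, inst, h1, fun h => absurd h ht, H, h2, f.ker, inferInstance,
      ⟨QuotientGroup.quotientKerEquivOfSurjective f hf⟩⟩

end Pool.Agent.Results.MP_fb3574_al.Section
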